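import Pool.Agent.helper10.V3.SpecL

/-!
Project v3, module BA2: the quadratic differential in the `x`-plane and its exactness.
-/

set_option autoImplicit false

open Complex Metric Set Filter Topology MeasureTheory MPS

noncomputable section

namespace V3S

/-- the singular part of one pole -/
def BA2_t (c g w : ℂ) : ℂ := 1 / (w - c) ^ 2 + g / (w - c)

theorem BA2_t_cont (c g w : ℂ) (h : w ≠ c) : ContinuousAt (BA2_t c g) w := by
  have h1 : w - c ≠ 0 := sub_ne_zero.2 h
  unfold BA2_t
  refine ContinuousAt.add (ContinuousAt.div (by fun_prop) (by fun_prop) (pow_ne_zero _ h1))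
    (ContinuousAt.div (by fun_prop) (by fun_prop) h1)

theorem BA2_split {k : ℕ} [NeZero k] (b g : ZMod k → ℂ) (m : ZMod k) (w : ℂ) :
    BB b g w = BA2_t (b m) (g m) w + ∑ i ∈ Finset.univ.erase m, BA2_t (b i) (g i) w := by
  unfold BB
  rw [Finset.add_sum_erase _ (fun i => BA2_t (b i) (g i) w) (Finset.mem_univ m)]
  rfl

theorem BA2_oth {k : ℕ} [NeZero k] (b g : ZMod k → ℂ) (hb : Function.Injective b) (m : ZMod k) :
    ContinuousAt (fun w => ∑ i ∈ Finset.univ.erase m, BA2_t (b i) (g i) w) (b m) := by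
  refine tendsto_finsetSum _ (fun i hi => ?_)
  exact BA2_t_cont _ _ _ (fun h => (Finset.mem_erase.1 hi).1 (hb h).symm)

/-- exactness at one pole: the local form -/
theorem BA2_loc {k : ℕ} [NeZero k] (f : Polynomial ℂ) (b g : ZMod k → ℂ) (hc : PPS.IsCyc f b)
    (he : PPS.Exact f b g) (l : ZMod k) :
    ∃ H : ℂ → ℂ, ContinuousAt H (b l) ∧ ∀ᶠ z in 𝓝[≠] (b l),
      PPS.fd f z ^ 2 * BB b g (f.eval z) - BB b g z = H z := by
  set β := b l with hβ
  set a := PPS.fd f β with ha
  have ha0 : a ≠ 0 := hc.ne0 l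
  -- `f - b (l+1) = (X - b l) q`
  obtain ⟨q, hq⟩ : (Polynomial.X - Polynomial.C β) ∣ (f - Polynomial.C (b (l + 1))) := by
    rw [Polynomial.dvd_iff_isRoot, Polynomial.IsRoot.def, Polynomial.eval_sub, Polynomial.eval_C,
      hc.step l, sub_self]
  have hfq : f = (Polynomial.X - Polynomial.C β) * q + Polynomial.C (b (l + 1)) := by
    rw [← hq]; ring
  have hfd : ∀ z, PPS.fd f z = q.eval z + (z - β) * q.derivative.eval z := by
    intro z
    unfold PPS.fd
    rw [hfq]
    simp [Polynomial.derivative_mul]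
  have hqa : q.eval β = a := by
    rw [ha, hfd β]; simp
  have hfdd : PPS.fdd f β = 2 * q.derivative.eval β := by
    unfold PPS.fdd
    rw [hfq]
    simp [Polynomial.derivative_mul]
    ring
  set s := q.derivative with hs
  set γ := g l with hγ
  set γ' := g (l + 1) with hγ'
  have hex : γ' = γ / a - 2 * s.eval β / a ^ 2 := by
    have := he l
    rw [← hfdd]
    exact this
  -- the polynomial `K`
  set K : Polynomial ℂ := Polynomial.C γ' * q ^ 3 + 2 * q * s - Polynomial.C γ * q ^ 2 with hK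
  obtain ⟨K1, hK1⟩ : (Polynomial.X - Polynomial.C β) ∣ K := by
    rw [Polynomial.dvd_iff_isRoot, Polynomial.IsRoot.def, hK]
    simp only [Polynomial.eval_sub, Polynomial.eval_add, Polynomial.eval_mul, Polynomial.eval_pow,
      Polynomial.eval_C, Polynomial.eval_ofNat]
    rw [hqa, hex]
    field_simp
    ring
  have hKz : ∀ z, γ' * q.eval z ^ 3 + 2 * q.eval z * s.eval z - γ * q.eval z ^ 2 =
      (z - β) * K1.eval z := by
    intro z
    have := congrArg (Polynomial.eval z) hK1
    rw [hK] at this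
    simpa using this
  refine ⟨fun z => (K1.eval z + s.eval z ^ 2 * (1 + γ' * (z - β) * q.eval z) +
      2 * γ' * q.eval z ^ 2 * s.eval z) / q.eval z ^ 2 +
      PPS.fd f z ^ 2 * (∑ i ∈ Finset.univ.erase (l + 1), BA2_t (b i) (g i) (f.eval z)) -
      ∑ i ∈ Finset.univ.erase l, BA2_t (b i) (g i) z, ?_, ?_⟩
  · have h1 : ContinuousAt (fun z => f.eval z) β := f.continuous.continuousAt
    have h2 : ContinuousAt (fun z => PPS.fd f z) β := by
      unfold PPS.fd
      exact f.derivative.continuous.continuousAt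
    have h3 : ContinuousAt (fun z => ∑ i ∈ Finset.univ.erase (l + 1), BA2_t (b i) (g i) (f.eval z)) β := by
      have h4 := BA2_oth b g hc.inj (l + 1)
      have h5 : f.eval β = b (l + 1) := hc.step l
      rw [← h5] at h4
      exact ContinuousAt.comp (f := fun z => f.eval z) h4 h1
    have h6 := BA2_oth b g hc.inj l
    have h7 : q.eval β ^ 2 ≠ 0 := pow_ne_zero _ (hqa ▸ ha0)
    have hqc : ContinuousAt (fun z => q.eval z) β := q.continuous.continuousAt
    have hsc : ContinuousAt (fun z => s.eval z) β := s.continuous.continuousAt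
    have hKc : ContinuousAt (fun z => K1.eval z) β := K1.continuous.continuousAt
    refine ((ContinuousAt.div ?_ (hqc.pow 2) h7).add ((h2.pow 2).mul h3)).sub h6
    fun_prop
  · have hqc : ContinuousAt (fun z => q.eval z) β := q.continuous.continuousAt
    have hq0 : ∀ᶠ z in 𝓝[≠] β, q.eval z ≠ 0 :=
      (hqc.eventually_ne (hqa ▸ ha0)).filter_mono nhdsWithin_le_nhds
    filter_upwards [hq0, self_mem_nhdsWithin] with z hz hzβ
    have hzβ' : z - β ≠ 0 := sub_ne_zero.2 hzβ
    have hfz : f.eval z - b (l + 1) = (z - β) * q.eval z := by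
      conv_lhs => rw [hfq]
      simp
    rw [BA2_split b g (l + 1) (f.eval z), BA2_split b g l z]
    have h1 : PPS.fd f z ^ 2 * BA2_t (b (l + 1)) (g (l + 1)) (f.eval z) - BA2_t (b l) (g l) z =
        (K1.eval z + s.eval z ^ 2 * (1 + γ' * (z - β) * q.eval z) +
      2 * γ' * q.eval z ^ 2 * s.eval z) / q.eval z ^ 2 := by
      unfold BA2_t
      rw [hfz, hfd z, ← hβ, ← hγ, ← hγ']
      field_simp
      linear_combination (z - β) * (hKz z)
    rw [← h1]
    ring

theorem BA2 (h1 : BA1_stmt) : BA2_stmt := by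
  intro n ra Cf D hD
  obtain ⟨hsg, hlam, hxz, hzx, hF0, hFadd, hFd, hFdm, hFder, hzzF, hFp, hp0, hFj0, hpi, hFk, hFkd⟩ :=
    h1 n ra Cf D hD
  have hpz : ∀ x l, D.zz x - D.b l = D.sg * (x - D.p l) := by
    intro x l
    unfold Dat.zz Dat.p Dat.xx
    field_simp
    ring
  have hB : ∀ x, D.B x = ∑ l, (1 / (x - D.p l) ^ 2 + D.sg * D.g l / (x - D.p l)) := by
    intro x
    unfold Dat.B BB
    rw [Finset.mul_sum]
    refine Finset.sum_congr rfl (fun l _ => ?_)
    rw [hpz]
    by_cases hx : x - D.p l = 0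
    · rw [hx]; simp
    · field_simp
  have h4 : ∀ x l, D.zz x = D.b l ↔ x = D.p l := by
    intro x l
    rw [← sub_eq_zero, hpz, mul_eq_zero, sub_eq_zero]
    simp [hsg]
  have hdiff : ∀ x, (∀ l, x ≠ D.p l) → HasDerivAt D.B
      (∑ l, (-2 / (x - D.p l) ^ 3 - D.sg * D.g l / (x - D.p l) ^ 2)) x := by
    intro x hx
    have h5 : D.B = fun x => ∑ l, (1 / (x - D.p l) ^ 2 + D.sg * D.g l / (x - D.p l)) := funext hB
    rw [h5]
    refine HasDerivAt.fun_sum (fun l _ => ?_)
    have hne : x - D.p l ≠ 0 := sub_ne_zero.2 (hx l)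
    have h6 : HasDerivAt (fun x : ℂ => x - D.p l) 1 x := (hasDerivAt_id x).sub_const _
    have h7 := (h6.pow 2).inv (pow_ne_zero 2 hne)
    have h8 := (h6.inv hne).const_mul (D.sg * D.g l)
    refine ((h7.add h8).congr_deriv ?_).congr_of_eventuallyEq ?_
    · simp only [Nat.cast_ofNat, Pi.pow_apply]
      field_simp
      ring
    · refine Filter.Eventually.of_forall (fun y => ?_)
      simp [div_eq_mul_inv]
  refine ⟨hB, fun x hx => (hdiff x hx).differentiableAt, ?_, h4, ?_⟩
  · intro x hx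
    have hopen : ∀ᶠ y in 𝓝 x, ∀ l, y ≠ D.p l := by
      rw [Filter.eventually_all]
      exact fun l => isOpen_ne.mem_nhds (hx l)
    have hev : deriv D.B =ᶠ[𝓝 x] fun y => ∑ l, (-2 / (y - D.p l) ^ 3 - D.sg * D.g l / (y - D.p l) ^ 2) := by
      filter_upwards [hopen] with y hy
      exact (hdiff y hy).deriv
    rw [hev.deriv_eq]
    refine HasDerivAt.deriv ?_
    refine HasDerivAt.fun_sum (fun l _ => ?_)
    have hne : x - D.p l ≠ 0 := sub_ne_zero.2 (hx l)
    have h6 : HasDerivAt (fun x : ℂ => x - D.p l) 1 x := (hasDerivAt_id x).sub_const _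
    have h7 := ((h6.pow 3).inv (pow_ne_zero 3 hne)).const_mul (-2 : ℂ)
    have h8 := ((h6.pow 2).inv (pow_ne_zero 2 hne)).const_mul (D.sg * D.g l)
    refine ((h7.sub h8).congr_deriv ?_).congr_of_eventuallyEq ?_
    · simp only [Nat.cast_ofNat, Pi.pow_apply]
      field_simp
      ring
    · refine Filter.Eventually.of_forall (fun y => ?_)
      simp [div_eq_mul_inv]
  · -- the case `j = 1`
    have hder1 : ∀ x, deriv (D.F 1) x = PPS.fd D.f (D.zz x) := by
      intro x
      rw [hFder 1 x]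
      simp only [Function.iterate_one]
      rw [Polynomial.deriv]
      rfl
    have hzz1 : ∀ x, D.zz (D.F 1 x) = D.f.eval (D.zz x) := by
      intro x
      rw [hzzF 1 x]
      simp
    have hzzc : Continuous D.zz := by
      unfold Dat.zz
      fun_prop
    have hzt : ∀ l, Tendsto D.zz (𝓝[≠] (D.p l)) (𝓝[≠] (D.b l)) := by
      intro l
      rw [tendsto_nhdsWithin_iff]
      constructor
      · have h5 : D.zz (D.p l) = D.b l := (h4 _ _).2 rfl
        rw [← h5]
        exact hzzc.continuousAt.tendsto.mono_left nhdsWithin_le_nhds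
      · filter_upwards [self_mem_nhdsWithin] with x hx
        exact fun h => hx ((h4 _ _).1 h)
    have hone : ∀ l, ∃ C : ℝ, ∀ᶠ x in 𝓝[≠] (D.p l),
        ‖deriv (D.F 1) x ^ 2 * D.B (D.F 1 x) - D.B x‖ ≤ C := by
      intro l
      obtain ⟨H, hH, hHe⟩ := BA2_loc D.f D.b D.g hD.cyc hD.ex l
      refine ⟨‖D.sg‖ ^ 2 * (‖H (D.b l)‖ + 1), ?_⟩
      have h5 : ∀ᶠ z in 𝓝[≠] (D.b l), ‖H z‖ < ‖H (D.b l)‖ + 1 :=
        (hH.norm.eventually (gt_mem_nhds (lt_add_one _))).filter_mono nhdsWithin_le_nhds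
      filter_upwards [(hzt l).eventually hHe, (hzt l).eventually h5] with x hx1 hx2
      have h6 : deriv (D.F 1) x ^ 2 * D.B (D.F 1 x) - D.B x = D.sg ^ 2 * H (D.zz x) := by
        rw [← hx1, hder1]
        unfold Dat.B
        rw [hzz1]
        ring
      rw [h6, norm_mul, norm_pow]
      exact mul_le_mul_of_nonneg_left hx2.le (by positivity)
    have hFt : ∀ l : ZMod D.k, Tendsto (D.F 1) (𝓝[≠] (D.p l)) (𝓝[≠] (D.p (l + 1))) := by
      intro l
      rw [tendsto_nhdsWithin_iff]
      have h5 : D.F 1 (D.p l) = D.p (l + 1) := by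
        rw [hFp 1 l]; simp
      constructor
      · rw [← h5]
        exact (hFd 1).continuous.continuousAt.tendsto.mono_left nhdsWithin_le_nhds
      · refine ((hFd 1) (D.p l)).hasDerivAt.eventually_ne ?_
        rw [hder1, (h4 _ _).2 rfl]
        exact hD.cyc.ne0 l
    intro j
    induction j with
    | zero =>
      intro l
      refine ⟨0, Filter.Eventually.of_forall (fun x => ?_)⟩
      have h5 : D.F 0 = fun x => x := funext hF0
      rw [h5]
      simp
    | succ j ih =>
      intro l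
      obtain ⟨C₁, hC₁⟩ := ih (l + 1)
      obtain ⟨C₂, hC₂⟩ := hone l
      have hc : ContinuousAt (fun x => ‖deriv (D.F 1) x ^ 2‖) (D.p l) := by
        have h5 : deriv (D.F 1) = fun x => PPS.fd D.f (D.zz x) := funext hder1
        rw [h5]
        have h6 : Continuous (fun x => PPS.fd D.f (D.zz x)) := by
          unfold PPS.fd
          exact D.f.derivative.continuous.comp hzzc
        exact ((h6.pow 2).norm).continuousAt
      have h7 : ∀ᶠ x in 𝓝[≠] (D.p l), ‖deriv (D.F 1) x ^ 2‖ < ‖deriv (D.F 1) (D.p l) ^ 2‖ + 1 :=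
        (hc.eventually (gt_mem_nhds (lt_add_one _))).filter_mono nhdsWithin_le_nhds
      refine ⟨C₁ * (‖deriv (D.F 1) (D.p l) ^ 2‖ + 1) + C₂, ?_⟩
      filter_upwards [(hFt l).eventually hC₁, hC₂, h7] with x hx1 hx2 hx3
      have h8 : deriv (D.F (j + 1)) x ^ 2 * D.B (D.F (j + 1) x) - D.B x =
          (deriv (D.F j) (D.F 1 x) ^ 2 * D.B (D.F j (D.F 1 x)) - D.B (D.F 1 x)) *
            deriv (D.F 1) x ^ 2 + (deriv (D.F 1) x ^ 2 * D.B (D.F 1 x) - D.B x) := by
        rw [hFdm j 1 x, hFadd j 1 x]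
        ring
      rw [h8]
      refine (norm_add_le _ _).trans (add_le_add ?_ hx2)
      rw [norm_mul]
      exact mul_le_mul hx1 hx3.le (norm_nonneg _) ((norm_nonneg _).trans hx1)

end V3S
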