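import Pool.Agent.helper54.V3.SpecE

/-!
Project v3, module CHP: integrals of polynomials along closed chains vanish.
-/

set_option autoImplicit false

open Complex Metric Set Filter Topology MeasureTheory

noncomputable section

namespace V3

theorem CHP_prim (p : Polynomial ℂ) : ∃ q : Polynomial ℂ, q.derivative = p := by
  induction p using Polynomial.induction_on' with
  | add p q hp hq =>
    obtain ⟨a, ha⟩ := hp
    obtain ⟨b, hb⟩ := hq
    exact ⟨a + b, by rw [Polynomial.derivative_add, ha, hb]⟩
  | monomial n a =>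
    refine ⟨Polynomial.monomial (n + 1) (a / ((n : ℂ) + 1)), ?_⟩
    rw [Polynomial.derivative_monomial]
    have h : ((n : ℂ) + 1) ≠ 0 := by exact_mod_cast Nat.succ_ne_zero n
    congr 1
    push_cast
    field_simp

theorem CHP : CHP_stmt := by
  intro m γ p hC
  obtain ⟨q, hq⟩ := CHP_prim p
  have key : ∀ j < m, ∫ s in (0 : ℝ)..1, p.eval (γ j s) * derivWithin (γ j) (Icc 0 1) s =
      q.eval (γ (j + 1) 0) - q.eval (γ j 0) := by
    intro j hj
    rw [← hC.cl j hj]
    have hγ := hC.c1 j hj
    have hU : UniqueDiffOn ℝ (Icc (0 : ℝ) 1) := uniqueDiffOn_Icc zero_lt_one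
    have hγc : ContinuousOn (γ j) (Icc 0 1) := hγ.continuousOn
    have hd : ContinuousOn (derivWithin (γ j) (Icc 0 1)) (Icc 0 1) :=
      hγ.continuousOn_derivWithin hU le_rfl
    refine intervalIntegral.integral_eq_sub_of_hasDeriv_right_of_le zero_le_one ?_ ?_ ?_
      (f := fun s => q.eval (γ j s))
    · exact q.continuous.comp_continuousOn hγc
    · intro s hs
      have h1 : HasDerivWithinAt (γ j) (derivWithin (γ j) (Icc 0 1) s) (Icc 0 1) s :=
        ((hγ.differentiableOn one_ne_zero) s (Ioo_subset_Icc_self hs)).hasDerivWithinAt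
      have h2 : HasDerivAt (γ j) (derivWithin (γ j) (Icc 0 1) s) s :=
        h1.hasDerivAt (Icc_mem_nhds hs.1 hs.2)
      have h3 : HasDerivAt (fun z => q.eval z) (p.eval (γ j s)) (γ j s) := by
        have := q.hasDerivAt (γ j s)
        rwa [hq] at this
      exact (h3.comp s h2).hasDerivWithinAt
    · apply ContinuousOn.intervalIntegrable_of_Icc zero_le_one
      exact (p.continuous.comp_continuousOn hγc).mul hd
  unfold chi
  rw [Finset.sum_congr rfl (fun j hj => key j (Finset.mem_range.1 hj)),
    Finset.sum_range_sub (fun j => q.eval (γ j 0)), hC.per, sub_self]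

end V3
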